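import Pool.Agent.LeadSN.Stm

/-!
# Piece CS of project SN
-/

set_option autoImplicit false

open scoped BigOperators
open Pool.Agent.Y282.RB Pool.Agent.LeadSN

namespace Pool.Agent.W2helper54.SN

lemma sum_odd (j : ℕ) : ∑ i ∈ Finset.range j, (2 * (i : ℝ) + 1) = (j : ℝ) ^ 2 := by
  induction j with
  | zero => simp
  | succ j ih =>
    rw [Finset.sum_range_succ, ih]
    push_cast
    ring

theorem p_cs : P_CS := by
  intro n σ γ j hj _ _
  have h2j : (0 : ℝ) < 2 * (j : ℝ) + 1 := by positivity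
  set c : ℝ := ((j : ℝ) + σ) / (2 * (j : ℝ) + 1) with hc
  set w : ℕ → ℝ := fun i => if i < j then 1 else c with hw
  have hw1 : ∀ i ∈ Finset.range j, w i = 1 := fun i hi => if_pos (Finset.mem_range.1 hi)
  have hw2 : w j = c := if_neg (lt_irrefl j)
  have hr : ∑ i ∈ Finset.range (j + 1), w i * (γ i - γ (i + 1)) = γ 0 - yy σ γ j := by
    rw [Finset.sum_range_succ, hw2, Finset.sum_congr rfl (fun i hi => by
      rw [hw1 i hi, one_mul]), Finset.sum_range_sub']
    have hth : 1 - th σ j = c := by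
      rw [hc]
      unfold th
      field_simp
      ring
    have hth' : th σ j = 1 - c := by linarith
    unfold yy
    rw [hth']
    ring
  have hf : ∑ i ∈ Finset.range (j + 1), (w i) ^ 2 * (2 * (i : ℝ) + 1) =
      (j : ℝ) ^ 2 + ((j : ℝ) + σ) ^ 2 / (2 * (j : ℝ) + 1) := by
    rw [Finset.sum_range_succ, hw2, Finset.sum_congr rfl (fun i hi => by
      rw [hw1 i hi, one_pow, one_mul]), sum_odd, hc]
    field_simp
  have hg : ∑ i ∈ Finset.range (j + 1), (γ i - γ (i + 1)) ^ 2 / (2 * (i : ℝ) + 1) ≤ TT n γ := by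
    unfold TT
    refine Finset.sum_le_sum_of_subset_of_nonneg ?_ fun i _ _ => by positivity
    intro i hi
    rw [Finset.mem_range] at *
    omega
  have hcs := Finset.sum_sq_le_sum_mul_sum_of_sq_le_mul (Finset.range (j + 1))
    (r := fun i => w i * (γ i - γ (i + 1))) (f := fun i => (w i) ^ 2 * (2 * (i : ℝ) + 1))
    (g := fun i => (γ i - γ (i + 1)) ^ 2 / (2 * (i : ℝ) + 1))
    (fun i _ => by positivity) (fun i _ => by positivity) (fun i _ => by
      have : (0 : ℝ) < 2 * (i : ℝ) + 1 := by positivity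
      apply le_of_eq
      field_simp)
  rw [hr, hf] at hcs
  have h0 : 0 ≤ (j : ℝ) ^ 2 + ((j : ℝ) + σ) ^ 2 / (2 * (j : ℝ) + 1) := by positivity
  unfold cc
  rw [← Real.sqrt_mul h0]
  exact Real.abs_le_sqrt (hcs.trans (mul_le_mul_of_nonneg_left hg h0))

end Pool.Agent.W2helper54.SN
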